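import Pool.Agent.helper27.SY.Spec

/-!
# Project sy: module DYA (dyadic summation)
-/

set_option autoImplicit false

namespace Pool.Agent.SY

open Finset ArithmeticFunction Pool.Agent.SX Pool.Agent.helper85.BVP

theorem DYA_half : ((1 : ℝ) / 2) ^ (0.99 : ℝ) ≤ 3 / 4 := by
  have h1 : ((1 : ℝ) / 2) ^ (0.99 : ℝ) ≤ ((1 : ℝ) / 2) ^ ((1 : ℝ) / 2) :=
    Real.rpow_le_rpow_of_exponent_ge (by norm_num) (by norm_num) (by norm_num)
  rw [← Real.sqrt_eq_rpow] at h1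
  refine h1.trans ?_
  rw [Real.sqrt_le_left (by norm_num)]
  norm_num

theorem DYA : DYA_stmt := by
  classical
  intro S N₀ h
  refine ⟨2 * N₀ + 4, ?_⟩
  intro N
  induction N using Nat.strong_induction_on with
  | _ N ih =>
  intro hN
  have hNr : (1 : ℝ) ≤ N := by exact_mod_cast hN
  have hN0 : (0 : ℝ) ≤ (N₀ : ℝ) := Nat.cast_nonneg _
  have hp1 : (1 : ℝ) ≤ (N : ℝ) ^ (0.99 : ℝ) := Real.one_le_rpow hNr (by norm_num)
  by_cases hlt : N < 2 * N₀ + 2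
  · have h1 : (((Icc 1 N).filter S).card : ℝ) ≤ N := by
      have : ((Icc 1 N).filter S).card ≤ N := by
        refine (Finset.card_filter_le _ _).trans ?_
        simp
      exact_mod_cast this
    have h2 : (N : ℝ) ≤ 2 * N₀ + 2 := by exact_mod_cast hlt.le
    nlinarith
  · have hM : N₀ ≤ N / 2 + 1 := by omega
    have hsub : (Icc 1 N).filter S ⊆ (Icc 1 (N / 2)).filter S ∪
        (Ico (N / 2 + 1) (2 * (N / 2 + 1))).filter S := by
      intro a ha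
      rw [mem_filter, mem_Icc] at ha
      rw [mem_union, mem_filter, mem_filter, mem_Icc, mem_Ico]
      by_cases h1 : a ≤ N / 2
      · exact Or.inl ⟨⟨ha.1.1, h1⟩, ha.2⟩
      · exact Or.inr ⟨⟨by omega, by omega⟩, ha.2⟩
    have hcard := (Finset.card_le_card hsub).trans (Finset.card_union_le _ _)
    have hcard' : (((Icc 1 N).filter S).card : ℝ) ≤ (((Icc 1 (N / 2)).filter S).card : ℝ) +
        (((Ico (N / 2 + 1) (2 * (N / 2 + 1))).filter S).card : ℝ) := by exact_mod_cast hcard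
    have h1 := h (N / 2 + 1) hM
    have h2 := ih (N / 2) (by omega) (by omega)
    have h3 : ((N / 2 + 1 : ℕ) : ℝ) ^ (0.985 : ℝ) ≤ (N : ℝ) ^ (0.99 : ℝ) := by
      have h4 : ((N / 2 + 1 : ℕ) : ℝ) ≤ N := by exact_mod_cast (by omega : N / 2 + 1 ≤ N)
      have h5 : ((N / 2 + 1 : ℕ) : ℝ) ^ (0.985 : ℝ) ≤ (N : ℝ) ^ (0.985 : ℝ) :=
        Real.rpow_le_rpow (Nat.cast_nonneg _) h4 (by norm_num)
      exact h5.trans (Real.rpow_le_rpow_of_exponent_le hNr (by norm_num))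
    have h6 : ((N / 2 : ℕ) : ℝ) ^ (0.99 : ℝ) ≤ 3 / 4 * (N : ℝ) ^ (0.99 : ℝ) := by
      have h7 : ((N / 2 : ℕ) : ℝ) ≤ 1 / 2 * (N : ℝ) := by
        have := Nat.cast_div_le (α := ℝ) (m := N) (n := 2)
        push_cast at this
        linarith
      have h8 : ((N / 2 : ℕ) : ℝ) ^ (0.99 : ℝ) ≤ (1 / 2 * (N : ℝ)) ^ (0.99 : ℝ) :=
        Real.rpow_le_rpow (Nat.cast_nonneg _) h7 (by norm_num)
      rw [Real.mul_rpow (by norm_num) (by linarith)] at h8
      refine h8.trans (mul_le_mul_of_nonneg_right DYA_half (by linarith))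
    have h9 : (2 * (N₀ : ℝ) + 4) * ((N / 2 : ℕ) : ℝ) ^ (0.99 : ℝ) ≤
        (2 * (N₀ : ℝ) + 4) * (3 / 4 * (N : ℝ) ^ (0.99 : ℝ)) :=
      mul_le_mul_of_nonneg_left h6 (by linarith)
    nlinarith

end Pool.Agent.SY
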